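import Mathlib
import Pool.Agent.H172Z.Morera.Main

/-!
Q2 has a negative answer for every `α` in `(0, 1)`: there is a function on the open unit disc,
continuous (even smooth in the real sense), whose contour integral over the circle of centre `z`
and radius `α (1 - |z|)` vanishes for every `z` in the disc, and which is not analytic.
-/

namespace Pool.Agent.Results.MP_9de1de_an.AOpenDiscCounter

theorem result : ∀ α : ℝ, 0 < α → α < 1 → ∃ f : ℂ → ℂ,
    ContinuousOn f (Metric.ball 0 1) ∧
      ContDiffOn ℝ ((⊤ : ℕ∞) : WithTop ℕ∞) f (Metric.ball 0 1) ∧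
        (∀ z : ℂ, ‖z‖ < 1 → circleIntegral f z (α * (1 - ‖z‖)) = 0) ∧
          ¬ AnalyticOn ℂ f (Metric.ball 0 1) := by
  intro α h0 h1
  obtain ⟨f, h2, h3, h4⟩ := Pool.Agent.H172Z.Morera.main α h0 h1
  exact ⟨f, h2.continuousOn, h2, h3, h4⟩

end Pool.Agent.Results.MP_9de1de_an.AOpenDiscCounter
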